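import Mathlib

/-!
A local loop lemma for odd cycles under absorption.
-/

namespace Pool.Agent.Results.MP_511665_al.OddCycle

universe u

/-! ### Markers in bi-infinite words -/

section Labels

variable {n : ℕ} (l q : ℕ)

/-- The word of length `q` at position `τ` has a period smaller than `l`. -/
def P (ω : ℤ → Fin n) (τ : ℤ) : Prop :=
  ∃ i : ℕ, 1 ≤ i ∧ i < l ∧ ∀ t : ℕ, t + i < q → ω (τ + t) = ω (τ + t + i)

/-- The word of length `q` at position `τ`. -/
def W (ω : ℤ → Fin n) (τ : ℤ) : Fin q → Fin n := fun t => ω (τ + (t : ℕ))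

/-- An injective rank of words. -/
noncomputable def rk (x : Fin q → Fin n) : ℕ := (Fintype.equivFin (Fin q → Fin n) x).val

/-- The number of words of length `q`. -/
def NN (n q : ℕ) : ℕ := Fintype.card (Fin q → Fin n)

lemma rk_lt (x : Fin q → Fin n) : rk q x < NN n q := (Fintype.equivFin (Fin q → Fin n) x).isLt

lemma rk_inj {x y : Fin q → Fin n} (h : rk q x = rk q y) : x = y :=
  (Fintype.equivFin (Fin q → Fin n)).injective (Fin.ext h)

/-- Strict local maxima of the rank, away from periodic positions. -/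
def Q (ω : ℤ → Fin n) (τ : ℤ) : Prop :=
  ¬ P l q ω τ ∧ ∀ e : ℤ, e ≠ 0 → -(l : ℤ) < e → e < l →
    ¬ P l q ω (τ + e) ∧ rk q (W q ω (τ + e)) < rk q (W q ω τ)

/-- Marked positions. -/
def Mark (ω : ℤ → Fin n) (τ : ℤ) : Prop := P l q ω τ ∨ Q l q ω τ

variable {l q}

lemma ne_of_notP {ω : ℤ → Fin n} {τ e : ℤ} (h : ¬ P l q ω τ) (h0 : e ≠ 0) (h1 : -(l : ℤ) < e)
    (h2 : e < l) : W q ω (τ + e) ≠ W q ω τ := by
  intro heq
  apply h
  rcases lt_or_gt_of_ne h0 with he | he
  · refine ⟨(-e).toNat, by omega, by omega, ?_⟩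
    intro t ht
    have h3 := congrFun heq ⟨t + (-e).toNat, by omega⟩
    have e1 : (((-e).toNat : ℕ) : ℤ) = -e := Int.toNat_of_nonneg (by omega)
    simp only [W] at h3
    push_cast at h3
    rw [e1] at h3
    rw [e1]
    have e2 : τ + e + ((t : ℤ) + -e) = τ + t := by ring
    have e3 : τ + ((t : ℤ) + -e) = τ + t + -e := by ring
    rw [e2, e3] at h3
    exact h3
  · refine ⟨e.toNat, by omega, by omega, ?_⟩
    intro t ht
    have h3 := congrFun heq ⟨t, by omega⟩
    have e1 : ((e.toNat : ℕ) : ℤ) = e := Int.toNat_of_nonneg (by omega)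
    simp only [W] at h3
    rw [e1]
    have e2 : τ + e + (t : ℤ) = τ + t + e := by ring
    rw [e2] at h3
    exact h3.symm

lemma mark_exists (ω : ℤ → Fin n) (τ : ℤ) :
    ∃ e : ℕ, e ≤ 2 * l * NN n q ∧ Mark l q ω (τ + e) := by
  by_contra hcon
  push Not at hcon
  have key : ∀ m σ : ℕ, l * m ≤ σ → σ + l * m ≤ 2 * l * NN n q →
      rk q (W q ω (τ + σ)) + m < NN n q := by
    intro m
    induction m with
    | zero =>
      intro σ _ _
      exact rk_lt q _
    | succ m ih =>
      intro σ h1 h2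
      have hl : l * (m + 1) = l * m + l := by ring
      rw [hl] at h1 h2
      have hσ := hcon σ (by omega)
      have hP : ¬ P l q ω (τ + σ) := fun h => hσ (Or.inl h)
      have hQ : ¬ Q l q ω (τ + σ) := fun h => hσ (Or.inr h)
      have hex : ∃ e : ℤ, e ≠ 0 ∧ -(l : ℤ) < e ∧ e < l ∧
          (P l q ω (τ + σ + e) ∨ rk q (W q ω (τ + σ)) ≤ rk q (W q ω (τ + σ + e))) := by
        by_contra hno
        push Not at hno
        apply hQ
        exact ⟨hP, fun e h0 h3 h4 => hno e h0 h3 h4⟩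
      obtain ⟨e, h0, h3, h4, h5⟩ := hex
      have e1 : τ + σ + e = τ + ((σ + e).toNat : ℕ) := by
        rw [Int.toNat_of_nonneg (by omega)]
        ring
      have hm := hcon (σ + e).toNat (by omega)
      rcases h5 with h5 | h5
      · exact absurd (Or.inl (e1 ▸ h5)) hm
      · have h6 := ih (σ + e).toNat (by omega) (by omega)
        rw [← e1] at h6
        have h7 : rk q (W q ω (τ + σ)) ≠ rk q (W q ω (τ + σ + e)) := fun h =>
          ne_of_notP hP h0 h3 h4 (rk_inj q h).symm
        omega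
  have := key (NN n q) (l * NN n q) le_rfl (by
    have : 2 * l * NN n q = l * NN n q + l * NN n q := by ring
    omega)
  omega

/-- Distance to the next mark. -/
noncomputable def D (l q : ℕ) (ω : ℤ → Fin n) (τ : ℤ) : ℕ :=
  sInf {h : ℕ | 1 ≤ h ∧ Mark l q ω (τ + h)}

/-- Distance to the last mark. -/
noncomputable def S (l q : ℕ) (ω : ℤ → Fin n) (τ : ℤ) : ℕ :=
  sInf {s : ℕ | Mark l q ω (τ - s)}

/-- The bound for the distances between marks. -/
def BB (n l q : ℕ) : ℕ := 2 * l * NN n q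

lemma D_spec (ω : ℤ → Fin n) (τ : ℤ) :
    (1 ≤ D l q ω τ ∧ Mark l q ω (τ + D l q ω τ)) ∧ D l q ω τ ≤ BB n l q + 1 ∧
      ∀ h, 1 ≤ h → h < D l q ω τ → ¬ Mark l q ω (τ + h) := by
  obtain ⟨e, he, hm⟩ := mark_exists (l := l) (q := q) ω (τ + 1)
  have hmem : e + 1 ∈ {h : ℕ | 1 ≤ h ∧ Mark l q ω (τ + h)} := by
    refine ⟨by omega, ?_⟩
    have : τ + ((e + 1 : ℕ) : ℤ) = τ + 1 + e := by
      push_cast
      ring
    rw [this]
    exact hm
  refine ⟨Nat.sInf_mem ⟨_, hmem⟩, (Nat.sInf_le hmem).trans (by unfold BB; omega), ?_⟩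
  intro h h1 h2 h3
  exact absurd (Nat.sInf_le (show h ∈ {h : ℕ | 1 ≤ h ∧ Mark l q ω (τ + h)} from ⟨h1, h3⟩))
    (not_le.mpr h2)

lemma S_spec (ω : ℤ → Fin n) (τ : ℤ) :
    Mark l q ω (τ - S l q ω τ) ∧ S l q ω τ ≤ BB n l q ∧
      ∀ s, s < S l q ω τ → ¬ Mark l q ω (τ - s) := by
  obtain ⟨e, he, hm⟩ := mark_exists (l := l) (q := q) ω (τ - BB n l q)
  have he' : e ≤ BB n l q := he
  have hmem : BB n l q - e ∈ {s : ℕ | Mark l q ω (τ - s)} := by
    change Mark l q ω (τ - ((BB n l q - e : ℕ) : ℤ))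
    have : τ - ((BB n l q - e : ℕ) : ℤ) = τ - BB n l q + e := by
      rw [Nat.cast_sub he']
      ring
    rw [this]
    exact hm
  refine ⟨Nat.sInf_mem ⟨_, hmem⟩, (Nat.sInf_le hmem).trans (by omega), ?_⟩
  intro s h2 h3
  exact absurd (Nat.sInf_le (show s ∈ {s : ℕ | Mark l q ω (τ - s)} from h3))
    (not_le.mpr h2)

/-- Two nearby periodic words: the next letter is determined. -/
lemma step_eq {ω : ℤ → Fin n} {τ : ℤ} {i : ℕ} (hi : 1 ≤ i) (hil : i < l)
    (hper : ∀ t : ℕ, t + i < q → ω (τ + t) = ω (τ + t + i)) {g : ℕ} (hg : 1 ≤ g) (hgl : g < l)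
    (hq : 3 * l ≤ q) (hP : P l q ω (τ + g)) : ω (τ + q) = ω (τ + q - i) := by
  obtain ⟨j, hj, hjl, hper'⟩ := hP
  have h1 := hper' (q - j - g) (by omega)
  have h2 := hper (q - j - i) (by omega)
  have h3 := hper' (q - j - i - g) (by omega)
  have c1 : ((q - j - g : ℕ) : ℤ) = q - j - g := by omega
  have c2 : ((q - j - i : ℕ) : ℤ) = q - j - i := by omega
  have c3 : ((q - j - i - g : ℕ) : ℤ) = q - j - i - g := by omega
  rw [c1] at h1
  rw [c2] at h2
  rw [c3] at h3
  have a1 : τ + (g : ℤ) + (q - j - g) = τ + q - j := by ring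
  have a2 : τ + (g : ℤ) + (q - j - g) + j = τ + q := by ring
  have a3 : τ + ((q : ℤ) - j - i) = τ + q - j - i := by ring
  have a4 : τ + ((q : ℤ) - j - i) + i = τ + q - j := by ring
  have a5 : τ + (g : ℤ) + (q - j - i - g) = τ + q - j - i := by ring
  have a6 : τ + (g : ℤ) + (q - j - i - g) + j = τ + q - i := by ring
  rw [a2, a1] at h1
  rw [a4, a3] at h2
  rw [a6, a5] at h3
  rw [← h1, ← h2, h3]

lemma PP {ω : ℤ → Fin n} {τ : ℤ} {g : ℕ} (hg : 1 ≤ g) (hgl : g < l)
    (hq : 3 * l ≤ q) (h0 : P l q ω τ) (hP : P l q ω (τ + g)) : P l q ω (τ + 1) := by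
  obtain ⟨i, hi, hil, hper⟩ := h0
  have hs := step_eq hi hil hper hg hgl hq hP
  refine ⟨i, hi, hil, ?_⟩
  intro t ht
  by_cases h : t + 1 + i < q
  · have h1 := hper (t + 1) h
    have e1 : τ + ((t + 1 : ℕ) : ℤ) = τ + 1 + t := by push_cast; ring
    rw [e1] at h1
    exact h1
  · have h2 : t + 1 + i = q := by omega
    have e1 : τ + 1 + (t : ℤ) = τ + q - i := by
      have : (q : ℤ) = t + 1 + i := by exact_mod_cast h2.symm
      rw [this]
      ring
    rw [e1, sub_add_cancel]
    exact hs.symm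

/-- The gap between consecutive marks. -/
lemma gap (hl : 3 ≤ l) (hq : 3 * l ≤ q) (ω : ℤ → Fin n) (τ : ℤ) :
    (S l q ω τ + D l q ω τ = 1 ∧ P l q ω τ ∧ P l q ω (τ + 1)) ∨
      l ≤ S l q ω τ + D l q ω τ := by
  obtain ⟨hS1, _, hS3⟩ := S_spec (l := l) (q := q) ω τ
  obtain ⟨⟨hD0, hD1⟩, _, hD3⟩ := D_spec (l := l) (q := q) ω τ
  by_contra hcon
  push Not at hcon
  obtain ⟨hc1, hc2⟩ := hcon
  set s := S l q ω τ with hs
  set h := D l q ω τ with hh
  have e1 : τ + (h : ℤ) = τ - s + ((s + h : ℕ) : ℤ) := by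
    push_cast
    ring
  have hPP : P l q ω (τ - s) ∧ P l q ω (τ - s + ((s + h : ℕ) : ℤ)) := by
    rcases hS1 with h1 | h1
    · refine ⟨h1, ?_⟩
      rcases hD1 with h2 | h2
      · rw [← e1]
        exact h2
      · exfalso
        have := (h2.2 (-((s + h : ℕ) : ℤ)) (by omega) (by omega) (by omega)).1
        apply this
        have e2 : τ + (h : ℤ) + -((s + h : ℕ) : ℤ) = τ - s := by
          push_cast
          ring
        rw [e2]
        exact h1
    · exfalso
      obtain ⟨h3, h4⟩ := h1.2 ((s + h : ℕ) : ℤ) (by omega) (by omega) (by omega)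
      rw [← e1] at h3 h4
      rcases hD1 with h2 | h2
      · exact h3 h2
      · have := (h2.2 (-((s + h : ℕ) : ℤ)) (by omega) (by omega) (by omega)).2
        have e2 : τ + (h : ℤ) + -((s + h : ℕ) : ℤ) = τ - s := by
          push_cast
          ring
        rw [e2] at this
        omega
  have h1 : P l q ω (τ - s + 1) := PP (by omega) hc2 hq hPP.1 hPP.2
  by_cases hg : s + h = 1
  · have hs0 : s = 0 := by omega
    have := hPP.1
    rw [hs0] at this h1
    rw [Nat.cast_zero, sub_zero] at this h1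
    exact hc1 hg this h1
  · rcases Nat.eq_zero_or_pos s with hs0 | hs0
    · apply hD3 1 le_rfl (by omega)
      left
      rw [hs0, Nat.cast_zero, sub_zero] at h1
      exact h1
    · apply hS3 (s - 1) (by omega)
      left
      have : τ - ((s - 1 : ℕ) : ℤ) = τ - s + 1 := by
        rw [Nat.cast_sub hs0]
        push_cast
        ring
      rw [this]
      exact h1

/-- The walk of length `g` around the odd cycle. -/
def wk (l g s : ℕ) : ℕ := if g % 2 = 0 then s % 2 else if s < l then s else (s - l) % 2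

/-- Adjacent labels on the cycle of length `l`. -/
def Adj (l x y : ℕ) : Prop :=
  (y = x + 1 ∧ y < l) ∨ (x = y + 1 ∧ x < l) ∨ (x + 1 = l ∧ y = 0) ∨ (x = 0 ∧ y + 1 = l)

lemma wk_adj (hl : 3 ≤ l) {g s : ℕ} : Adj l (wk l g s) (wk l g (s + 1)) := by
  unfold wk Adj
  split_ifs <;> omega

lemma wk_zero (hl : 3 ≤ l) (g : ℕ) : wk l g 0 = 0 := by
  unfold wk
  split_ifs <;> omega

lemma wk_one (hl : 3 ≤ l) (g : ℕ) : wk l g 1 = 1 := by
  unfold wk
  split_ifs <;> omega

lemma wk_end (hodd : l % 2 = 1) {g : ℕ} (hg : l ≤ g) : wk l g g = 0 := by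
  unfold wk
  split_ifs <;> omega

/-- The label of a position. -/
noncomputable def lab (l q : ℕ) (ω : ℤ → Fin n) (τ : ℤ) : ℕ :=
  wk l (S l q ω τ + D l q ω τ) (S l q ω τ)

lemma S_of_mark {ω : ℤ → Fin n} {τ : ℤ} (h : Mark l q ω τ) : S l q ω τ = 0 := by
  have : 0 ∈ {s : ℕ | Mark l q ω (τ - s)} := by
    change Mark l q ω (τ - ((0 : ℕ) : ℤ))
    rw [Nat.cast_zero, sub_zero]
    exact h
  exact Nat.le_zero.mp (Nat.sInf_le this)

lemma lab_of_mark (hl : 3 ≤ l) {ω : ℤ → Fin n} {τ : ℤ} (h : Mark l q ω τ) :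
    lab l q ω τ = 0 := by
  unfold lab
  rw [S_of_mark h]
  exact wk_zero hl _

lemma S_succ {ω : ℤ → Fin n} {τ : ℤ} (h : ¬ Mark l q ω (τ + 1)) :
    S l q ω (τ + 1) = S l q ω τ + 1 := by
  obtain ⟨hS1, _, hS3⟩ := S_spec (l := l) (q := q) ω τ
  obtain ⟨hT1, _, hT3⟩ := S_spec (l := l) (q := q) ω (τ + 1)
  apply le_antisymm
  · apply Nat.sInf_le
    change Mark l q ω (τ + 1 - ((S l q ω τ + 1 : ℕ) : ℤ))
    have : τ + 1 - ((S l q ω τ + 1 : ℕ) : ℤ) = τ - S l q ω τ := by
      push_cast
      ring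
    rw [this]
    exact hS1
  · by_contra hlt
    rw [not_le] at hlt
    rcases Nat.eq_zero_or_pos (S l q ω (τ + 1)) with h0 | h0
    · rw [h0, Nat.cast_zero, sub_zero] at hT1
      exact h hT1
    · apply hS3 (S l q ω (τ + 1) - 1) (by omega)
      have : τ - ((S l q ω (τ + 1) - 1 : ℕ) : ℤ) = τ + 1 - S l q ω (τ + 1) := by
        rw [Nat.cast_sub h0]
        push_cast
        ring
      rw [this]
      exact hT1

lemma D_succ {ω : ℤ → Fin n} {τ : ℤ} (h : ¬ Mark l q ω (τ + 1)) :
    D l q ω τ = D l q ω (τ + 1) + 1 := by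
  obtain ⟨⟨hD0, hD1⟩, _, hD3⟩ := D_spec (l := l) (q := q) ω τ
  obtain ⟨⟨hE0, hE1⟩, _, hE3⟩ := D_spec (l := l) (q := q) ω (τ + 1)
  apply le_antisymm
  · apply Nat.sInf_le
    refine ⟨by omega, ?_⟩
    have : τ + ((D l q ω (τ + 1) + 1 : ℕ) : ℤ) = τ + 1 + D l q ω (τ + 1) := by
      push_cast
      ring
    rw [this]
    exact hE1
  · by_contra hlt
    rw [not_le] at hlt
    rcases Nat.lt_or_ge (D l q ω τ) 2 with h0 | h0
    · have h1 : D l q ω τ = 1 := by omega
      rw [h1, Nat.cast_one] at hD1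
      exact h hD1
    · apply hE3 (D l q ω τ - 1) (by omega) (by omega)
      have : τ + 1 + ((D l q ω τ - 1 : ℕ) : ℤ) = τ + D l q ω τ := by
        rw [Nat.cast_sub (by omega)]
        push_cast
        ring
      rw [this]
      exact hD1

lemma D_of_mark {ω : ℤ → Fin n} {τ : ℤ} (h : Mark l q ω (τ + 1)) : D l q ω τ = 1 := by
  obtain ⟨⟨hD0, _⟩, _, _⟩ := D_spec (l := l) (q := q) ω τ
  have : 1 ∈ {h : ℕ | 1 ≤ h ∧ Mark l q ω (τ + h)} := by
    refine ⟨le_rfl, ?_⟩
    rw [Nat.cast_one]
    exact h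
  exact le_antisymm (Nat.sInf_le this) hD0

/-- Consecutive positions have adjacent labels, unless both are periodic. -/
lemma lab_adj (hl : 3 ≤ l) (hodd : l % 2 = 1) (hq : 3 * l ≤ q) {ω : ℤ → Fin n} {τ : ℤ}
    (h : ¬ (P l q ω τ ∧ P l q ω (τ + 1))) : Adj l (lab l q ω τ) (lab l q ω (τ + 1)) := by
  by_cases hm : Mark l q ω (τ + 1)
  · rw [lab_of_mark hl hm]
    have hD := D_of_mark hm
    rcases gap hl hq ω τ with h1 | h1
    · exact absurd h1.2 h
    · unfold lab
      rw [hD] at h1 ⊢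
      have h2 := wk_adj hl (g := S l q ω τ + 1) (s := S l q ω τ)
      rw [wk_end hodd h1] at h2
      exact h2
  · unfold lab
    have h1 := S_succ hm
    have h2 := D_succ hm
    have h3 : S l q ω (τ + 1) + D l q ω (τ + 1) = S l q ω τ + D l q ω τ := by omega
    rw [h3, h1]
    exact wk_adj hl

/-- After a periodic position comes a position which is periodic or has label one. -/
lemma lab_after (hl : 3 ≤ l) {ω : ℤ → Fin n} {τ : ℤ}
    (h0 : P l q ω τ) (h1 : ¬ P l q ω (τ + 1)) : lab l q ω (τ + 1) = 1 := by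
  have hm : ¬ Mark l q ω (τ + 1) := by
    rintro (h | h)
    · exact h1 h
    · have := (h.2 (-1) (by omega) (by omega) (by omega)).1
      rw [add_assoc] at this
      simp only [Int.reduceNeg, add_neg_cancel, add_zero] at this
      exact this h0
  have h2 := S_succ hm
  rw [S_of_mark (Or.inl h0)] at h2
  unfold lab
  rw [h2]
  exact wk_one hl _

section Loc

variable {ω ω' : ℤ → Fin n} {τ τ' : ℤ}

lemma P_loc (h : ∀ t : ℤ, 0 ≤ t → t < q → ω' (τ' + t) = ω (τ + t)) :
    P l q ω' τ' ↔ P l q ω τ := by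
  unfold P
  refine exists_congr fun i => and_congr_right fun _ => and_congr_right fun _ => ?_
  refine forall_congr' fun t => ?_
  refine forall_congr' fun ht => ?_
  have e1 := h t (by omega) (by omega)
  have e2 := h (t + i) (by omega) (by omega)
  rw [← add_assoc, ← add_assoc] at e2
  rw [e1, e2]

lemma W_loc (h : ∀ t : ℤ, 0 ≤ t → t < q → ω' (τ' + t) = ω (τ + t)) :
    W q ω' τ' = W q ω τ := by
  funext t
  exact h (t : ℕ) (by omega) (by have := t.isLt; omega)

lemma Q_loc (hl : 1 ≤ l) (h : ∀ t : ℤ, -(l : ℤ) < t → t < l + q → ω' (τ' + t) = ω (τ + t)) :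
    Q l q ω' τ' ↔ Q l q ω τ := by
  have key : ∀ e : ℤ, -(l : ℤ) < e → e < l →
      (P l q ω' (τ' + e) ↔ P l q ω (τ + e)) ∧ W q ω' (τ' + e) = W q ω (τ + e) := by
    intro e h1 h2
    have : ∀ t : ℤ, 0 ≤ t → t < q → ω' (τ' + e + t) = ω (τ + e + t) := by
      intro t h3 h4
      rw [add_assoc, add_assoc]
      exact h (e + t) (by omega) (by omega)
    exact ⟨P_loc this, W_loc this⟩
  have k0 := key 0 (by omega) (by omega)
  rw [add_zero, add_zero] at k0
  unfold Q
  rw [k0.1, k0.2]
  refine and_congr_right fun _ => forall_congr' fun e => forall_congr' fun h0 =>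
    forall_congr' fun h1 => forall_congr' fun h2 => ?_
  rw [(key e h1 h2).1, (key e h1 h2).2]

lemma Mark_loc (hl : 1 ≤ l) (h : ∀ t : ℤ, -(l : ℤ) < t → t < l + q → ω' (τ' + t) = ω (τ + t)) :
    Mark l q ω' τ' ↔ Mark l q ω τ := by
  unfold Mark
  rw [Q_loc hl h, P_loc (fun t h1 h2 => h t (by omega) (by omega))]

lemma S_le (hl : 1 ≤ l) (h : ∀ t : ℤ, -((BB n l q + l : ℕ) : ℤ) ≤ t →
    t ≤ (BB n l q + 1 + l + q : ℕ) → ω' (τ' + t) = ω (τ + t)) :
    S l q ω' τ' ≤ S l q ω τ := by
  obtain ⟨hS1, hS2, _⟩ := S_spec (l := l) (q := q) ω τ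
  apply Nat.sInf_le
  change Mark l q ω' (τ' - (S l q ω τ : ℤ))
  rw [Mark_loc hl (ω := ω) (τ := τ - S l q ω τ)]
  · exact hS1
  · intro t h1 h2
    have := h (t - S l q ω τ) (by push_cast; omega) (by push_cast; omega)
    have e1 : τ' - (S l q ω τ : ℤ) + t = τ' + (t - S l q ω τ) := by ring
    have e2 : τ - (S l q ω τ : ℤ) + t = τ + (t - S l q ω τ) := by ring
    rw [e1, e2]
    exact this

lemma D_le (hl : 1 ≤ l) (h : ∀ t : ℤ, -((BB n l q + l : ℕ) : ℤ) ≤ t →
    t ≤ (BB n l q + 1 + l + q : ℕ) → ω' (τ' + t) = ω (τ + t)) :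
    D l q ω' τ' ≤ D l q ω τ := by
  obtain ⟨⟨hD0, hD1⟩, hD2, _⟩ := D_spec (l := l) (q := q) ω τ
  apply Nat.sInf_le
  refine ⟨hD0, ?_⟩
  rw [Mark_loc hl (ω := ω) (τ := τ + D l q ω τ)]
  · exact hD1
  · intro t h1 h2
    have := h (t + D l q ω τ) (by push_cast; omega) (by push_cast; omega)
    have e1 : τ' + (D l q ω τ : ℤ) + t = τ' + (t + D l q ω τ) := by ring
    have e2 : τ + (D l q ω τ : ℤ) + t = τ + (t + D l q ω τ) := by ring
    rw [e1, e2]
    exact this

lemma lab_loc (hl : 1 ≤ l) (h : ∀ t : ℤ, -((BB n l q + l : ℕ) : ℤ) ≤ t →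
    t ≤ (BB n l q + 1 + l + q : ℕ) → ω' (τ' + t) = ω (τ + t)) :
    lab l q ω' τ' = lab l q ω τ := by
  have h' : ∀ t : ℤ, -((BB n l q + l : ℕ) : ℤ) ≤ t →
    t ≤ (BB n l q + 1 + l + q : ℕ) → ω (τ + t) = ω' (τ' + t) := fun t h1 h2 => (h t h1 h2).symm
  unfold lab
  rw [le_antisymm (S_le hl h) (S_le hl h'), le_antisymm (D_le hl h) (D_le hl h')]

end Loc

end Labels

/-! ### The tree -/

section Tree

variable {A : Type u} {n : ℕ}

/-- The tree of depth `m` at the node `w` (restricted to the first `d` letters). -/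
def ev (f : (Fin n → A) → A) (X : (ℕ → Fin n) → A) : ℕ → ℕ → (ℕ → Fin n) → A
  | 0, _, w => X w
  | m + 1, d, w => f (fun j => ev f X m (d + 1) (Function.update w d j))

/-- Adding a first letter. -/
def cons (i : Fin n) (w : ℕ → Fin n) : ℕ → Fin n := fun t => if t = 0 then i else w (t - 1)

/-- The centred two-sided word. -/
def emb (c : ℕ) (v : ℕ → Fin n) : ℤ → Fin n := fun t => v (t + c).toNat

lemma update_cons (i j : Fin n) (w : ℕ → Fin n) (d : ℕ) :
    Function.update (cons i w) (d + 1) j = cons i (Function.update w d j) := by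
  funext t
  unfold cons
  by_cases h : t = d + 1
  · subst h
    simp
  · rw [Function.update_of_ne h]
    by_cases h0 : t = 0
    · simp [h0]
    · rw [if_neg h0, if_neg h0, Function.update_of_ne (by omega)]

lemma ev_const {f : (Fin n → A) → A} (hid : ∀ x, f (fun _ => x) = x) {X : (ℕ → Fin n) → A}
    (x : A) : ∀ (m d : ℕ) (w : ℕ → Fin n), (∀ v : ℕ → Fin n, (∀ t, t < d → v t = w t) → X v = x) →
      ev f X m d w = x := by
  intro m
  induction m with
  | zero => intro d w h; exact h w (fun _ _ => rfl)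
  | succ m ih =>
    intro d w h
    have : ∀ j, ev f X m (d + 1) (Function.update w d j) = x := by
      intro j
      apply ih
      intro v hv
      apply h
      intro t ht
      rw [hv t (by omega), Function.update_of_ne (by omega)]
    change f (fun j => ev f X m (d + 1) (Function.update w d j)) = x
    simp only [this]
    exact hid x

/-- The value of a leaf. -/
noncomputable def XX (α : ℕ → A) (l q c : ℕ) (v : ℕ → Fin n) : A := α (lab l q (emb c v) 0)

variable {α : ℕ → A} {l q c k : ℕ}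

lemma XX_congr (hl : 1 ≤ l) (hc : BB n l q + l < c) (hk : c + BB n l q + l + q + 2 ≤ k)
    {v v' : ℕ → Fin n} (h : ∀ t, t < k → v t = v' t) : XX α l q c v = XX α l q c v' := by
  unfold XX
  rw [lab_loc hl (ω := emb c v') (τ := 0)]
  intro t h1 h2
  rw [zero_add]
  exact h _ (by omega)

lemma P_emb {v v' : ℕ → Fin n} (h : ∀ t, c ≤ t → t < c + q → v t = v' t) :
    P l q (emb c v) 0 ↔ P l q (emb c v') 0 := by
  apply P_loc
  intro t h1 h2
  rw [zero_add]
  exact h _ (by omega) (by omega)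

variable {R : A → A → Prop} {f : (Fin n → A) → A}

lemma leaf (hα : ∀ x y, Adj l x y → R (α x) (α y)) (hl : 3 ≤ l) (hodd : l % 2 = 1)
    (hq : 3 * l ≤ q) (hc : BB n l q + l < c) (hk : c + BB n l q + l + q + 2 ≤ k)
    {w : ℕ → Fin n} {i j : Fin n} (hP : ¬ P l q (emb c (cons i w)) 0) :
    R (XX α l q c (cons i w)) (XX α l q c (Function.update w (k - 1) j)) := by
  have hagree : ∀ t, t < k → cons i w t = cons i (Function.update w (k - 1) j) t := by
    intro t ht
    unfold cons
    by_cases h0 : t = 0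
    · simp [h0]
    · rw [if_neg h0, if_neg h0, Function.update_of_ne (by omega)]
  have h1 : XX α l q c (cons i w) = XX α l q c (cons i (Function.update w (k - 1) j)) :=
    XX_congr (by omega) hc hk hagree
  have h2 : lab l q (emb c (Function.update w (k - 1) j)) 0 =
      lab l q (emb c (cons i (Function.update w (k - 1) j))) (0 + 1) := by
    apply lab_loc (by omega)
    intro t h3 h4
    unfold emb
    have e1 : (0 + 1 + t + (c : ℤ)).toNat = (0 + t + (c : ℤ)).toNat + 1 := by omega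
    rw [e1]
    simp [cons]
  have h3 : ¬ P l q (emb c (cons i (Function.update w (k - 1) j))) 0 := by
    rw [← P_emb (v := cons i w)]
    · exact hP
    · intro t h5 h6
      exact hagree t (by omega)
  rw [h1]
  unfold XX
  rw [h2]
  exact hα _ _ (lab_adj hl hodd hq (fun h => h3 h.1))

lemma claimA (hid : ∀ x, f (fun _ => x) = x)
    (hcomp : ∀ x y : Fin n → A, (∀ i, R (x i) (y i)) → R (f x) (f y))
    (hα : ∀ x y, Adj l x y → R (α x) (α y)) (hl : 3 ≤ l) (hodd : l % 2 = 1)
    (hq : 3 * l ≤ q) (hc : BB n l q + l < c) (hk : c + BB n l q + l + q + 2 ≤ k) :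
    ∀ (m d : ℕ) (w : ℕ → Fin n) (i : Fin n), m + d + 1 = k → c + q ≤ d + 1 →
      ¬ P l q (emb c (cons i w)) 0 →
      R (ev f (XX α l q c) m (d + 1) (cons i w)) (ev f (XX α l q c) (m + 1) d w) := by
  intro m
  induction m with
  | zero =>
    intro d w i h1 h2 hP
    have hd : d = k - 1 := by omega
    have h3 : ∀ j : Fin n, R (XX α l q c (cons i w)) (XX α l q c (Function.update w d j)) := by
      intro j
      rw [hd]
      exact leaf hα hl hodd hq hc hk hP
    have h4 := hcomp (fun _ => XX α l q c (cons i w))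
      (fun j => XX α l q c (Function.update w d j)) h3
    rw [hid] at h4
    exact h4
  | succ m ih =>
    intro d w i h1 h2 hP
    change R (f fun j => ev f (XX α l q c) m (d + 1 + 1) (Function.update (cons i w) (d + 1) j))
      (f fun j => ev f (XX α l q c) (m + 1) (d + 1) (Function.update w d j))
    apply hcomp
    intro j
    rw [update_cons]
    apply ih (d + 1) (Function.update w d j) i (by omega) (by omega)
    rw [← update_cons, P_emb (v' := cons i w)]
    · exact hP
    · intro t h5 h6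
      exact Function.update_of_ne (by omega) _ _

lemma claimB (hid : ∀ x, f (fun _ => x) = x)
    (hcomp : ∀ x y : Fin n → A, (∀ i, R (x i) (y i)) → R (f x) (f y))
    (habs : ∀ (j : Fin n) (b : Fin n → A), (∀ i, R (α 0) (b i)) →
      R (α 0) (f (Function.update b j (α 0))))
    (hα : ∀ x y, Adj l x y → R (α x) (α y)) (hl : 3 ≤ l) (hodd : l % 2 = 1)
    (hq : 3 * l ≤ q) (hc : BB n l q + l < c) (hk : c + BB n l q + l + q + 2 ≤ k)
    {m d : ℕ} {w : ℕ → Fin n} {i : Fin n} (h1 : m + d + 1 = k) (h2 : d + 1 = c + q) :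
    R (ev f (XX α l q c) m (d + 1) (cons i w)) (ev f (XX α l q c) (m + 1) d w) := by
  classical
  by_cases hP : P l q (emb c (cons i w)) 0
  swap
  · exact claimA hid hcomp hα hl hodd hq hc hk m d w i h1 (by omega) hP
  have hR01 : R (α 0) (α 1) := hα 0 1 (Or.inl ⟨rfl, by omega⟩)
  -- constant subtrees
  have hper0 : ∀ u : ℕ → Fin n, P l q (emb c u) 0 →
      ev f (XX α l q c) m (d + 1) u = α 0 := by
    intro u hu
    apply ev_const hid
    intro v hv
    unfold XX
    rw [lab_of_mark hl]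
    left
    rw [P_emb (v' := u)]
    · exact hu
    · intro t h5 h6
      exact hv t (by omega)
  have hshift : ∀ (j : Fin n) (t : ℤ), 0 ≤ t → t < q → ∀ v : ℕ → Fin n,
      (∀ s, s < d + 1 → v s = Function.update w d j s) →
      emb c v (-1 + t) = emb c (cons i w) (0 + t) := by
    intro j t h5 h6 v hv
    unfold emb
    have e1 : (0 + t + (c : ℤ)).toNat = (-1 + t + (c : ℤ)).toNat + 1 := by omega
    rw [e1, hv _ (by omega), Function.update_of_ne (by omega)]
    simp [cons]
  have hper1 : ∀ j : Fin n, ¬ P l q (emb c (Function.update w d j)) 0 →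
      ev f (XX α l q c) m (d + 1) (Function.update w d j) = α 1 := by
    intro j hu
    apply ev_const hid
    intro v hv
    unfold XX
    have h3 : P l q (emb c v) (-1) := by
      rw [P_loc (ω := emb c (cons i w)) (τ := 0)]
      · exact hP
      · intro t h5 h6
        exact hshift j t h5 h6 v hv
    have h4 : ¬ P l q (emb c v) (-1 + 1) := by
      rw [neg_add_cancel, P_emb (v' := Function.update w d j)]
      · exact hu
      · intro t h5 h6
        exact hv t (by omega)
    have h5 := lab_after hl h3 h4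
    rw [neg_add_cancel] at h5
    rw [h5]
  have huniq : ∀ j j' : Fin n, P l q (emb c (Function.update w d j)) 0 →
      P l q (emb c (Function.update w d j')) 0 → j = j' := by
    obtain ⟨i0, hi1, hi2, hper⟩ := hP
    have key : ∀ j : Fin n, P l q (emb c (Function.update w d j)) 0 → j = w (d - i0) := by
      intro j hj
      have h3 := step_eq (ω := emb c (Function.update w d j)) (τ := -1) (g := 1) hi1 hi2 (by
        intro t ht
        have e1 := hshift j t (by omega) (by omega) (Function.update w d j) (fun _ _ => rfl)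
        have e2 := hshift j (t + i0) (by omega) (by omega) (Function.update w d j)
          (fun _ _ => rfl)
        rw [← add_assoc, ← add_assoc] at e2
        rw [e1, e2]
        exact hper t ht) le_rfl (by omega) hq (by
          have : (-1 + ((1 : ℕ) : ℤ)) = 0 := by norm_num
          rw [this]
          exact hj)
      unfold emb at h3
      have e1 : (-1 + (q : ℤ) + c).toNat = d := by omega
      have e2 : (-1 + (q : ℤ) - i0 + c).toNat = d - i0 := by omega
      rw [e1, e2, Function.update_self, Function.update_of_ne (by omega)] at h3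
      exact h3
    intro j j' hj hj'
    rw [key j hj, key j' hj']
  rw [hper0 _ hP]
  change R (α 0) (f fun j => ev f (XX α l q c) m (d + 1) (Function.update w d j))
  by_cases hex : ∃ j0 : Fin n, P l q (emb c (Function.update w d j0)) 0
  · obtain ⟨j0, hj0⟩ := hex
    have h3 : (fun j => ev f (XX α l q c) m (d + 1) (Function.update w d j)) =
        Function.update (fun _ => α 1) j0 (α 0) := by
      funext j
      by_cases hj : j = j0
      · subst hj
        rw [Function.update_self]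
        exact hper0 _ hj0
      · rw [Function.update_of_ne hj]
        exact hper1 j (fun h => hj (huniq j j0 h hj0))
    rw [h3]
    exact habs j0 _ (fun _ => hR01)
  · push Not at hex
    have h3 : (fun j => ev f (XX α l q c) m (d + 1) (Function.update w d j)) =
        fun _ => α 1 := by
      funext j
      exact hper1 j (hex j)
    rw [h3, hid]
    exact hR01

lemma claimC (hid : ∀ x, f (fun _ => x) = x)
    (hcomp : ∀ x y : Fin n → A, (∀ i, R (x i) (y i)) → R (f x) (f y))
    (habs : ∀ (j : Fin n) (b : Fin n → A), (∀ i, R (α 0) (b i)) →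
      R (α 0) (f (Function.update b j (α 0))))
    (hα : ∀ x y, Adj l x y → R (α x) (α y)) (hl : 3 ≤ l) (hodd : l % 2 = 1)
    (hq : 3 * l ≤ q) (hc : BB n l q + l < c) (hk : c + BB n l q + l + q + 2 ≤ k) :
    ∀ (m d : ℕ) (w : ℕ → Fin n) (i : Fin n), m + d + 1 = k → d + 1 ≤ c + q →
      R (ev f (XX α l q c) m (d + 1) (cons i w)) (ev f (XX α l q c) (m + 1) d w) := by
  intro m
  induction m with
  | zero =>
    intro d w i h1 h2
    exfalso
    omega
  | succ m ih =>
    intro d w i h1 h2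
    rcases eq_or_lt_of_le h2 with h3 | h3
    · exact claimB hid hcomp habs hα hl hodd hq hc hk h1 h3
    · change R (f fun j => ev f (XX α l q c) m (d + 1 + 1) (Function.update (cons i w) (d + 1) j))
        (f fun j => ev f (XX α l q c) (m + 1) (d + 1) (Function.update w d j))
      apply hcomp
      intro j
      rw [update_cons]
      exact ih (d + 1) (Function.update w d j) i (by omega) (by omega)

end Tree

/-- `B` absorbs `C` with respect to `f`: changing one argument from `B` to an element of `C`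
keeps the value in `B`. -/
def Absorbs {A : Type u} {n : ℕ} (f : (Fin n → A) → A) (B C : Set A) : Prop :=
  ∀ (j : Fin n) (b : Fin n → A) (c : A), (∀ i, b i ∈ B) → c ∈ C →
    f (Function.update b j c) ∈ B

/-- An odd cycle `a₀, …, a_{l-1}` of `R` through the first vertex `a₀`; the vertices are
distinct. -/
def IsOddCycle {A : Type u} (R : A → A → Prop) (l : ℕ) (a : ℕ → A) : Prop :=
  3 ≤ l ∧ Odd l ∧ (∀ i < l, ∀ j < l, a i = a j → i = j) ∧
    (∀ i, i + 1 < l → R (a i) (a (i + 1))) ∧ R (a (l - 1)) (a 0)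

/-- The local loop lemma for odd cycles under absorption. -/
theorem result {A : Type u} (R : A → A → Prop) (hsym : ∀ x y, R x y → R y x)
    {n : ℕ} (hn : 1 ≤ n) (f : (Fin n → A) → A)
    (hid : ∀ x, f (fun _ => x) = x)
    (hcomp : ∀ x y : Fin n → A, (∀ i, R (x i) (y i)) → R (f x) (f y))
    {l : ℕ} (a : ℕ → A) (hcyc : IsOddCycle R l a)
    (habs : Absorbs f {b | R (a 0) b} {a 0}) :
    ∃ x, R x x := by
  obtain ⟨hl, hodd, -, hpath, hclose⟩ := hcyc
  have hodd' : l % 2 = 1 := Nat.odd_iff.mp hodd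
  have hα : ∀ x y, Adj l x y → R (a x) (a y) := by
    intro x y h
    rcases h with ⟨h1, h2⟩ | ⟨h1, h2⟩ | ⟨h1, h2⟩ | ⟨h1, h2⟩
    · rw [h1]
      exact hpath x (by omega)
    · rw [h1]
      exact hsym _ _ (hpath y (by omega))
    · have : x = l - 1 := by omega
      rw [this, h2]
      exact hclose
    · have : y = l - 1 := by omega
      rw [this, h1]
      exact hsym _ _ hclose
  obtain ⟨q, hq⟩ : ∃ q, q = 3 * l := ⟨_, rfl⟩
  obtain ⟨c, hc⟩ : ∃ c, c = BB n l q + l + 1 := ⟨_, rfl⟩
  obtain ⟨k, hk⟩ : ∃ k, k = c + BB n l q + l + q + 2 := ⟨_, rfl⟩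
  let w : ℕ → Fin n := fun _ => ⟨0, by omega⟩
  let t := ev f (XX a l q c) k 0 w
  obtain ⟨m, hm⟩ : ∃ m, k = m + 1 := ⟨k - 1, by omega⟩
  have h1 : ∀ i : Fin n, R (ev f (XX a l q c) m (0 + 1) (cons i w)) t := by
    intro i
    have := claimC hid hcomp (fun j b hb => habs j b (a 0) hb rfl) hα hl hodd' hq.ge
      (by omega) hk.ge m 0 w i (by omega) (by omega)
    rw [← hm] at this
    exact this
  have h2 : f (fun i => ev f (XX a l q c) m (0 + 1) (cons i w)) = t := by
    have : ∀ i : Fin n, cons i w = Function.update w 0 i := by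
      intro i
      funext s
      by_cases hs : s = 0
      · subst hs
        simp [cons]
      · rw [Function.update_of_ne hs]
        simp [cons, hs, w]
    simp only [this]
    change _ = ev f (XX a l q c) k 0 w
    rw [hm]
    rfl
  refine ⟨t, ?_⟩
  have h3 := hcomp _ (fun _ => t) h1
  rw [h2, hid] at h3
  exact h3

end Pool.Agent.Results.MP_511665_al.OddCycle
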